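import Pool.Agent.X128.MC.D

/-!
# MP_d0f95c_al : if `Mcd_G(N) = {1, p^a}` then `[N, G]` is abelian

Idea of the proof. For every normal subgroup `L ≤ N` of `G` the degrees of `Irr(L)` and the sizes of
the `G`-orbits on `Irr(L)` are powers of `p`. If `L` is not abelian, then `p` divides the number of
linear characters of `L`, and since all orbits have `p`-power size there is a `G`-invariant linear
character of order `p`; its kernel `L₁` is normal in `G` and `L / L₁` has order `p`. By induction along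
this chain every `θ ∈ Irr(L)` has an invariant polarisation: there is a subgroup `H` of `G` with
`H L = I_G(θ)` and an `H`-invariant linear character `λ` of `U = H ∩ L` with `θ = λ^L`
(`Pool.Agent.X128.MC.step`). For `L = N` and `θ` with `|G : I_G(θ)| θ(1) = f` one gets `|G : H| = f`.
The permutation character of `G` on the cosets of `H` contains, restricted to `N`, only `1_N` and
other minimal invariant characters of degree `< f`, i.e. `G`-invariant linear characters. So
`K = [N, G] ≤ U`, and `K' ≤ ker λ`; hence `K' ≤ ker θ` for all `θ`, and `K' = 1`.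
-/

open scoped Classical
open Pool.Agent.Helper884.IC Pool.Agent.Y63.AWC Pool.Agent.X128.MC

noncomputable section

namespace Pool.Agent.Results.MP_d0f95c_al.CommutatorAbelian

/-- `χ` is the character of an irreducible complex representation of the group `N`. -/
def IsIrr {N : Type} [Group N] (χ : N → ℂ) : Prop :=
  ∃ (V : Type) (_ : AddCommGroup V) (_ : Module ℂ V) (_ : FiniteDimensional ℂ V)
    (ρ : Representation ℂ N V), ρ.IsIrreducible ∧ χ = ρ.character

variable {G : Type} [Group G]

/-- The conjugate `θ^g`, `θ^g(n) = θ(g n g⁻¹)`. -/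
def conj (N : Subgroup G) [N.Normal] (g : G) (θ : N → ℂ) : N → ℂ :=
  fun n => θ (MulAut.conjNormal g n)

/-- The `G`-orbit of `θ`. -/
def orbit (N : Subgroup G) [N.Normal] (θ : N → ℂ) : Set (N → ℂ) := {η | ∃ g : G, η = conj N g θ}

/-- The sum of the distinct `G`-conjugates of `θ`. -/
def hat (N : Subgroup G) [N.Normal] (θ : N → ℂ) : N → ℂ := fun n => ∑ᶠ η ∈ orbit N θ, η n

/-- `Mcd_G(N)`: the degrees `hat θ (1)`, `θ ∈ Irr(N)`. -/
def Mcd (N : Subgroup G) [N.Normal] : Set ℂ := {z | ∃ θ : N → ℂ, IsIrr θ ∧ z = hat N θ 1}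

/-- If `Mcd_G(N) ⊆ {1, p^a}` with `p` prime, then `[N, G]` is abelian. -/
theorem result [Finite G] (N : Subgroup G) [N.Normal] (p a : ℕ) (hp : p.Prime)
    (h : Mcd N ⊆ {1, (p : ℂ) ^ a}) :
    ∀ x ∈ ⁅N, (⊤ : Subgroup G)⁆, ∀ y ∈ ⁅N, (⊤ : Subgroup G)⁆, x * y = y * x := by
  have : Fintype G := Fintype.ofFinite G
  apply main N hp (a := a)
  intro θ hθ
  obtain ⟨n, hn0, hn⟩ := deg_nat hθ
  refine ⟨n, hn, ?_⟩
  have h1 : hat N θ 1 = ((Orb N θ).card * n : ℕ) := by
    unfold hat
    have e : orbit N θ = ↑(Orb N θ) := by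
      ext η
      simp only [orbit, Orb, Finset.coe_image, Finset.coe_univ, Set.image_univ, Set.mem_range,
        Set.mem_ofPred_eq]
      constructor
      · rintro ⟨g, rfl⟩
        exact ⟨g, rfl⟩
      · rintro ⟨g, rfl⟩
        exact ⟨g, rfl⟩
    rw [e, finsum_mem_coe_finset, Finset.sum_congr rfl (g := fun _ => (n : ℂ)), Finset.sum_const,
      nsmul_eq_mul]
    · push_cast
      rfl
    · intro η hη
      obtain ⟨g, -, rfl⟩ := Finset.mem_image.mp hη
      rw [← hn]
      simp [cj]
  have h2 : hat N θ 1 ∈ ({1, (p : ℂ) ^ a} : Set ℂ) := h ⟨θ, hθ, rfl⟩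
  rw [h1] at h2
  rcases h2 with h2 | h2
  · left
    exact_mod_cast h2
  · right
    have h3 : (((Orb N θ).card * n : ℕ) : ℂ) = ((p ^ a : ℕ) : ℂ) := by
      rw [h2]
      push_cast
      rfl
    exact_mod_cast h3

end Pool.Agent.Results.MP_d0f95c_al.CommutatorAbelian
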